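import Pool.Agent.Helper75.Jen.Alg2

set_option autoImplicit false
set_option maxHeartbeats 1000000

open Complex Filter Topology MeasureTheory

/-! Package C for the Jensen threshold theorem: the Jensen polynomials as averages -/

namespace Pool.Agent.Helper36.JenC

open Pool.Agent.Helper75.Jen

/-- the rescaled Jensen polynomial `J^{D,0}(z / D)` of the Taylor coefficients of `f` -/
noncomputable def PD (D : ℕ) (f : ℂ → ℂ) (z : ℂ) : ℂ :=
  ∑ k ∈ Finset.range (D + 1), (D.choose k : ℂ) * iteratedDeriv k f 0 * (z / D) ^ k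

/-- Leibniz rule -/
theorem leib {f : ℂ → ℂ} (hf : Differentiable ℂ f) (D : ℕ) (c : ℂ) :
    iteratedDeriv D (fun s => f (c * s) * cexp s) 0 =
      ∑ k ∈ Finset.range (D + 1), (D.choose k : ℂ) * iteratedDeriv k f 0 * c ^ k := by
  have h1 : ContDiff ℂ D f := hf.contDiff
  have h2 : ContDiff ℂ D (fun s => f (c * s)) := h1.comp (contDiff_const.mul contDiff_id)
  have h3 : ContDiff ℂ D cexp := Complex.contDiff_exp
  rw [iteratedDeriv_fun_mul h2.contDiffAt h3.contDiffAt]
  refine Finset.sum_congr rfl fun k hk => ?_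
  rw [Finset.mem_range] at hk
  have h4 : ContDiff ℂ k f := hf.contDiff
  rw [iteratedDeriv_comp_const_mul h4]
  have h5 : iteratedDeriv (D - k) cexp 0 = 1 := by
    rw [iteratedDeriv_eq_iterate, iter_deriv_exp, Complex.exp_zero]
  rw [h5]
  simp only [mul_zero]
  ring

/-- (C1) -/
theorem c1 {f : ℂ → ℂ} (hf : Differentiable ℂ f) {D : ℕ} (hD : 1 ≤ D) (z : ℂ) :
    PD D f z = ((D.factorial / (2 * Real.pi * D ^ D) : ℝ) : ℂ) *
      ∫ φ in (-Real.pi)..Real.pi, cexp (D * cexp (φ * I) - D * φ * I) * f (z * cexp (φ * I)) := by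
  have hD0 : (D : ℂ) ≠ 0 := by
    have : D ≠ 0 := by omega
    exact_mod_cast this
  have hDr : (0 : ℝ) < D := by exact_mod_cast hD
  set g : ℂ → ℂ := fun s => f (z / D * s) * cexp s with hg
  have hgd : Differentiable ℂ g :=
    (hf.comp ((differentiable_const _).mul differentiable_id)).mul Complex.differentiable_exp
  have h1 : PD D f z = iteratedDeriv D g 0 := by
    rw [hg, leib hf D (z / D)]; rfl
  have h2 := DifferentiableOn.circleIntegral_one_div_sub_center_pow_smul (c := 0) (f := g) hDr D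
    hgd.differentiableOn
  set F : ℝ → ℂ := fun φ => cexp (D * cexp (φ * I) - D * φ * I) * f (z * cexp (φ * I)) with hF
  have hper : Function.Periodic F (2 * Real.pi) := by
    intro φ
    rw [hF]
    simp only
    have e1 : cexp (((φ + 2 * Real.pi : ℝ) : ℂ) * I) = cexp (φ * I) := by
      rw [show (((φ + 2 * Real.pi : ℝ) : ℂ) * I) = φ * I + 2 * Real.pi * I by push_cast; ring,
        Complex.exp_add, Complex.exp_two_pi_mul_I, mul_one]
    rw [e1]
    congr 1
    rw [show (D * cexp (φ * I) - D * ((φ + 2 * Real.pi : ℝ) : ℂ) * I : ℂ) =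
      (D * cexp (φ * I) - D * φ * I) + ((-(D : ℤ) : ℤ) : ℂ) * (2 * Real.pi * I) by
        push_cast; ring, Complex.exp_add, Complex.exp_int_mul_two_pi_mul_I, mul_one]
  have h3 : (∮ s in C(0, (D : ℝ)), (1 / (s - 0) ^ (D + 1)) • g s) =
      I / D ^ D * ∫ φ in (-Real.pi)..Real.pi, F φ := by
    have h4 : (∫ φ in (-Real.pi)..Real.pi, F φ) = ∫ φ in (0 : ℝ)..(2 * Real.pi), F φ := by
      have := hper.intervalIntegral_add_eq (-Real.pi) 0
      rw [zero_add, show -Real.pi + 2 * Real.pi = Real.pi by ring] at this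
      exact this
    rw [h4, circleIntegral, ← intervalIntegral.integral_const_mul]
    refine intervalIntegral.integral_congr fun φ _ => ?_
    rw [hF]
    simp only [deriv_circleMap, circleMap_zero, smul_eq_mul, sub_zero, hg]
    have e2 : z / D * (D * cexp (φ * I)) = z * cexp (φ * I) := by field_simp
    have e3 : ((D : ℝ) : ℂ) = D := by simp
    rw [e3, e2]
    have e4 : cexp (D * cexp (φ * I) - D * φ * I) = cexp (D * cexp (φ * I)) / cexp (φ * I) ^ D := by
      rw [Complex.exp_sub, ← Complex.exp_nat_mul]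
      congr 2
      ring
    rw [e4]
    have e5 : cexp (φ * I) ≠ 0 := Complex.exp_ne_zero _
    field_simp
    rw [mul_pow, pow_succ, pow_succ, mul_comm (cexp (φ * I)) z]
    ring
  rw [h3, smul_eq_mul] at h2
  rw [h1]
  have hfac : (D.factorial : ℂ) ≠ 0 := by exact_mod_cast D.factorial_ne_zero
  have hpi : (Real.pi : ℂ) ≠ 0 := by exact_mod_cast Real.pi_ne_zero
  have hI : I ≠ 0 := Complex.I_ne_zero
  push_cast
  field_simp at h2 ⊢
  linear_combination -h2

/-- Stirling's upper bound -/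
theorem stir {D : ℕ} (hD : 1 ≤ D) :
    (D.factorial : ℝ) ≤ Real.exp 1 * Real.sqrt D * (D / Real.exp 1) ^ D := by
  obtain ⟨m, rfl⟩ : ∃ m, D = m + 1 := ⟨D - 1, by omega⟩
  have h1 := Stirling.stirlingSeq'_antitone (Nat.zero_le m)
  simp only [Function.comp_apply, Nat.succ_eq_add_one, zero_add] at h1
  rw [Stirling.stirlingSeq_one, Stirling.stirlingSeq] at h1
  have h2 : (0 : ℝ) < ((m + 1 : ℕ) : ℝ) := by positivity
  rw [div_le_div_iff₀ (by positivity) (by positivity)] at h1
  have h3 : Real.sqrt (2 * ((m + 1 : ℕ) : ℝ)) = Real.sqrt 2 * Real.sqrt ((m + 1 : ℕ) : ℝ) :=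
    Real.sqrt_mul (by norm_num) _
  rw [h3] at h1
  have h4 : 0 < Real.sqrt 2 := by positivity
  nlinarith [h1]

/-- (C2) bound of the kernel (Stirling upper bound, `cos φ ≤ 1 - φ^2/5`) -/
theorem c2 {D : ℕ} (hD : 1 ≤ D) {φ : ℝ} (hφ : |φ| ≤ Real.pi) :
    D.factorial / (2 * Real.pi * D ^ D) * ‖cexp (D * cexp (φ * I) - D * φ * I)‖ ≤
      3 * Real.sqrt D * Real.exp (-(D * φ ^ 2 / 5)) := by
  have hDr : (0 : ℝ) < D := by exact_mod_cast hD
  have h1 : ‖cexp (D * cexp (φ * I) - D * φ * I)‖ = Real.exp (D * Real.cos φ) := by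
    rw [Complex.norm_exp]
    congr 1
    simp [Complex.exp_mul_I, Complex.cos_ofReal_re]
  have h2 : Real.cos φ ≤ 1 - φ ^ 2 / 5 := by
    refine (Real.cos_le_one_sub_mul_cos_sq hφ).trans ?_
    have h3 : (1 : ℝ) / 5 ≤ 2 / Real.pi ^ 2 := by
      rw [div_le_div_iff₀ (by norm_num) (by positivity)]
      have := Real.pi_lt_d2
      nlinarith [Real.pi_pos]
    have : φ ^ 2 / 5 = 1 / 5 * φ ^ 2 := by ring
    rw [this]
    nlinarith [sq_nonneg φ]
  rw [h1]
  have h3 := stir hD
  have h4 : (D.factorial : ℝ) / (2 * Real.pi * D ^ D) ≤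
      3 * Real.sqrt D * Real.exp (-(D : ℝ)) := by
    rw [div_le_iff₀ (by positivity)]
    refine h3.trans ?_
    rw [div_pow, ← Real.exp_nat_mul, mul_one, Real.exp_neg]
    have h5 : Real.exp 1 ≤ 6 * Real.pi := by
      have := Real.exp_one_lt_d9
      have := Real.pi_gt_three
      linarith
    have h6 : 0 ≤ Real.sqrt D * (D ^ D / Real.exp D) := by positivity
    calc Real.exp 1 * Real.sqrt D * (D ^ D / Real.exp D)
        = Real.exp 1 * (Real.sqrt D * (D ^ D / Real.exp D)) := by ring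
      _ ≤ 6 * Real.pi * (Real.sqrt D * (D ^ D / Real.exp D)) :=
          mul_le_mul_of_nonneg_right h5 h6
      _ = _ := by
          field_simp
          ring
  calc (D.factorial : ℝ) / (2 * Real.pi * D ^ D) * Real.exp (D * Real.cos φ)
      ≤ 3 * Real.sqrt D * Real.exp (-(D : ℝ)) * Real.exp (D * (1 - φ ^ 2 / 5)) := by
        gcongr
    _ = 3 * Real.sqrt D * Real.exp (-(D * φ ^ 2 / 5)) := by
        rw [mul_assoc, ← Real.exp_add]
        congr 2
        ring

/-- the derivative of a Jensen polynomial -/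
theorem hasDeriv_Jv (m : ℕ) (g : ℕ → ℂ) (w : ℂ) :
    HasDerivAt (Jv (m + 1) g) ((m + 1) * Jv m (fun j => g (j + 1)) w) w := by
  unfold Jv
  have h1 : HasDerivAt (fun w : ℂ => ∑ j ∈ Finset.range (m + 1 + 1),
      ((m + 1).choose j : ℂ) * g j * w ^ j)
      (∑ j ∈ Finset.range (m + 1 + 1), ((m + 1).choose j : ℂ) * g j * (j * w ^ (j - 1))) w := by
    refine HasDerivAt.fun_sum fun j _ => ?_
    exact (hasDerivAt_pow j w).const_mul _
  convert h1 using 1
  rw [Finset.sum_range_succ' _ (m + 1)]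
  simp only [Nat.cast_zero, zero_mul, mul_zero, add_zero, Finset.mul_sum, Nat.add_sub_cancel]
  refine Finset.sum_congr rfl fun j _ => ?_
  have h2 : ((m + 1 : ℕ) : ℂ) * (m.choose j : ℂ) = ((m + 1).choose (j + 1) : ℂ) * ((j + 1 : ℕ) : ℂ) := by
    exact_mod_cast Nat.add_one_mul_choose_eq m j
  push_cast at h2 ⊢
  linear_combination g (j + 1) * w ^ j * h2

/-- (C3) the derivatives are Jensen polynomials again (`Jv` is in Helper75/Jen/Alg2.lean) -/
theorem c3 {f : ℂ → ℂ} {D n : ℕ} (hn : n ≤ D) (hD : 1 ≤ D) (z : ℂ) :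
    iteratedDeriv n (PD D f) z = ((D.factorial / ((D - n).factorial * D ^ n) : ℝ) : ℂ) *
      Jv (D - n) (fun j => iteratedDeriv (n + j) f 0) (z / D) := by
  have hD0 : (D : ℂ) ≠ 0 := by
    have : D ≠ 0 := by omega
    exact_mod_cast this
  induction n generalizing z with
  | zero =>
    rw [iteratedDeriv_zero]
    have : (D.factorial : ℂ) ≠ 0 := by exact_mod_cast D.factorial_ne_zero
    simp only [Nat.sub_zero, pow_zero, mul_one, zero_add]
    rw [show ((D.factorial / D.factorial : ℝ) : ℂ) = 1 by push_cast; exact div_self this, one_mul]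
    rfl
  | succ n ih =>
    rw [iteratedDeriv_succ]
    have h1 : iteratedDeriv n (PD D f) = fun z =>
        ((D.factorial / ((D - n).factorial * D ^ n) : ℝ) : ℂ) *
        Jv (D - n) (fun j => iteratedDeriv (n + j) f 0) (z / D) := by
      funext w
      exact ih (by omega) w
    rw [h1]
    obtain ⟨m, hm⟩ : ∃ m, D - n = m + 1 := ⟨D - n - 1, by omega⟩
    have hm' : D - (n + 1) = m := by omega
    rw [hm, hm']
    have h2 : HasDerivAt (fun z : ℂ => z / D) (1 / D) z := by
      simpa using (hasDerivAt_id z).div_const (D : ℂ)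
    have h3 := (hasDeriv_Jv m (fun j => iteratedDeriv (n + j) f 0) (z / D)).comp z h2
    have h4 := (h3.const_mul ((D.factorial / ((m + 1).factorial * D ^ n) : ℝ) : ℂ)).deriv
    simp only [Function.comp_def] at h4
    rw [h4]
    have h5 : (fun j => iteratedDeriv (n + (j + 1)) f 0) = fun j => iteratedDeriv (n + 1 + j) f 0 := by
      funext j
      rw [show n + (j + 1) = n + 1 + j by ring]
    rw [h5]
    have h6 : (m.factorial : ℂ) ≠ 0 := by exact_mod_cast m.factorial_ne_zero
    have h7 : ((m : ℂ) + 1) ≠ 0 := by exact_mod_cast Nat.succ_ne_zero m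
    rw [Nat.factorial_succ]
    push_cast
    field_simp
    ring

/-- (C4) the average of the constant function -/
theorem c4 {D : ℕ} (hD : 1 ≤ D) : (1 : ℂ) = ((D.factorial / (2 * Real.pi * D ^ D) : ℝ) : ℂ) *
      ∫ φ in (-Real.pi)..Real.pi, cexp (D * cexp (φ * I) - D * φ * I) := by
  have h1 := c1 (f := fun _ => (1 : ℂ)) (differentiable_const _) hD 0
  simp only [mul_one] at h1
  rw [← h1, PD, Finset.sum_eq_single 0]
  · simp
  · intro k _ hk
    rw [zero_div, zero_pow hk, mul_zero]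
  · simp

end Pool.Agent.Helper36.JenC
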